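import Mathlib

/-!
# No hierarchical tiling of a Hilbert space by bodies of bounded size

A tiling is hierarchical if it is obtained by successive partitions: the space is partitioned into
closed convex sets which contain lines (the cells), each of these is partitioned into smaller cells,
and so on, and the tiles are limits of cells.  The tiling of `c₀` by cubes is of this kind.
-/

set_option autoImplicit false

open Metric Set Filter Topology

namespace Pool.Agent.Results.MP_3191e9_an.HierarchicalTilings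

variable {H : Type} [NormedAddCommGroup H] [InnerProductSpace ℝ H]

/-- `P` is a set of cells: closed convex sets which contain lines.  Every cell is partitioned into
smaller cells.  The tiles (the elements of `T`) are limits of cells: the intersection of a chain of
cells is empty, or a cell, or a tile. -/
structure IsHierarchy (P T : Set (Set H)) : Prop where
  closed : ∀ U ∈ P, IsClosed U
  convex : ∀ U ∈ P, Convex ℝ U
  line : ∀ U ∈ P, ∃ x v : H, v ≠ 0 ∧ ∀ t : ℝ, x + t • v ∈ U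
  partition : ∀ U ∈ P, ∃ Q ⊆ P, (∀ V ∈ Q, V ⊂ U) ∧ ⋃₀ Q = U ∧
    ∀ V ∈ Q, ∀ V' ∈ Q, V ≠ V' → Disjoint (interior V) (interior V')
  limit : ∀ C ⊆ P, C.Nonempty → IsChain (· ⊆ ·) C → ⋂₀ C = ∅ ∨ ⋂₀ C ∈ P ∨ ⋂₀ C ∈ T

theorem line_inv {U : Set H} (hc : IsClosed U) (hx : Convex ℝ U) {x v : H}
    (h : ∀ t : ℝ, x + t • v ∈ U) {u : H} (hu : u ∈ U) (s : ℝ) : u + s • v ∈ U := by
  have h1 : Tendsto (fun ε : ℝ => u + s • v + ε • (x - u)) (𝓝[>] 0) (𝓝 (u + s • v)) := by
    have h2 : Tendsto (fun ε : ℝ => u + s • v + ε • (x - u)) (𝓝 0)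
        (𝓝 (u + s • v + (0 : ℝ) • (x - u))) := by
      exact (continuous_const.add (continuous_id.smul continuous_const)).tendsto 0
    rw [zero_smul, add_zero] at h2
    exact h2.mono_left nhdsWithin_le_nhds
  refine hc.mem_of_tendsto h1 ?_
  have h3 : ∀ᶠ ε : ℝ in 𝓝[>] 0, ε ∈ Ioo (0 : ℝ) 1 := Ioo_mem_nhdsGT one_pos
  filter_upwards [h3] with ε hε
  have h4 := hx hu (h (s / ε)) (by linarith [hε.2] : 0 ≤ 1 - ε) hε.1.le (by ring)
  have h5 : (1 - ε) • u + ε • (x + (s / ε) • v) = u + s • v + ε • (x - u) := by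
    rw [smul_add, smul_smul, mul_div_cancel₀ _ hε.1.ne', sub_smul, one_smul, smul_sub]
    abel
  rwa [h5] at h4

theorem step_ex {S : Set ℝ} (h0 : (0 : ℝ) ∈ S) {t : ℝ} (ht : t ∉ S) {ε : ℝ} (hε : 0 < ε) :
    ∃ s ∈ S, ∃ s' ∉ S, |s' - s| ≤ ε := by
  by_contra hcon
  push Not at hcon
  obtain ⟨N, hN⟩ := exists_nat_gt (|t| / ε)
  have hN0 : (0 : ℝ) < N := lt_of_le_of_lt (by positivity) hN
  have h1 : ∀ i : ℕ, (i : ℝ) * (t / N) ∈ S := by
    intro i
    induction i with
    | zero => simpa using h0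
    | succ i ih =>
      by_contra h2
      have h3 := hcon _ ih _ h2
      have h4 : ((i + 1 : ℕ) : ℝ) * (t / N) - i * (t / N) = t / N := by
        push_cast
        ring
      rw [h4, abs_div, abs_of_pos hN0, lt_div_iff₀ hN0] at h3
      rw [div_lt_iff₀ hε] at hN
      nlinarith
  apply ht
  have h5 := h1 N
  rwa [mul_div_cancel₀ _ hN0.ne'] at h5

/-- In every cell, every point is close to a ball of radius `r` contained in the cell. -/
def Near (P : Set (Set H)) (r m : ℝ) : Prop :=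
  ∀ U ∈ P, ∀ x ∈ U, ∃ z, closedBall z r ⊆ U ∧ ‖z - x‖ ^ 2 ≤ m

/-- A nonempty subset `L` of a cell `U` is contained in a tile in `U`, or in a cell `W` in `U`, but
in none of the parts of `W`. -/
theorem descend {P T : Set (Set H)} (hP : IsHierarchy P T) {U L : Set H} (hU : U ∈ P) (hL : L ⊆ U)
    (hne : L.Nonempty) : (∃ A ∈ T, A ⊆ U ∧ L ⊆ A) ∨
      ∃ W ∈ P, W ⊆ U ∧ L ⊆ W ∧ ∀ V ∈ P, V ⊂ W → ¬ L ⊆ V := by
  by_cases hT : ∃ A ∈ T, A ⊆ U ∧ L ⊆ A
  · exact Or.inl hT
  · refine Or.inr ?_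
    obtain ⟨W, hWU, hW⟩ := zorn_superset_nonempty {V : Set H | V ∈ P ∧ V ⊆ U ∧ L ⊆ V} (by
      intro C hC hch hCne
      have h1 : L ⊆ ⋂₀ C := subset_sInter fun V hV => (hC hV).2.2
      have h2 : ⋂₀ C ⊆ U := by
        obtain ⟨V, hV⟩ := hCne
        exact (sInter_subset_of_mem hV).trans (hC hV).2.1
      refine ⟨⋂₀ C, ⟨?_, h2, h1⟩, fun V hV => sInter_subset_of_mem hV⟩
      rcases hP.limit C (fun V hV => (hC hV).1) hCne hch with h3 | h3 | h3
      · rw [h3] at h1
        exact absurd (hne.mono h1) not_nonempty_empty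
      · exact h3
      · exact absurd ⟨_, h3, h2, h1⟩ hT) U ⟨hU, subset_rfl, hL⟩
    refine ⟨W, hW.prop.1, hW.prop.2.1, hW.prop.2.2, fun V hV hVW hLV => ?_⟩
    have h4 := hW.le_of_le (y := V) ⟨hV, hVW.subset.trans hW.prop.2.1, hLV⟩ hVW.subset
    exact hVW.not_subset h4

theorem near_base {P T : Set (Set H)} (hP : IsHierarchy P T) {r R : ℝ}
    (hT : ∀ A ∈ T, ∃ z, closedBall z r ⊆ A ∧ A ⊆ closedBall z R) : Near P r (R ^ 2) := by
  intro U hU x hx
  rcases descend hP hU (singleton_subset_iff.2 hx) (singleton_nonempty x) with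
    ⟨A, hA, hAU, hxA⟩ | ⟨W, hW, -, hxW, hcut⟩
  · obtain ⟨z, hz1, hz2⟩ := hT A hA
    refine ⟨z, hz1.trans hAU, ?_⟩
    have h5 := hz2 (singleton_subset_iff.1 hxA)
    rw [mem_closedBall, dist_eq_norm, norm_sub_rev] at h5
    exact pow_le_pow_left₀ (norm_nonneg _) h5 2
  · exfalso
    obtain ⟨Q, hQP, hQW, hQ, -⟩ := hP.partition W hW
    have h2 := singleton_subset_iff.1 hxW
    rw [← hQ] at h2
    obtain ⟨V, hV, hxV⟩ := h2
    exact hcut V (hQP hV) (hQW V hV) (singleton_subset_iff.2 hxV)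

theorem near_step {P T : Set (Set H)} (hP : IsHierarchy P T) {r R : ℝ}
    (hr : 0 < r) (hT : ∀ A ∈ T, ∃ z, closedBall z r ⊆ A ∧ A ⊆ closedBall z R) {m : ℝ}
    (hm : 0 ≤ m) (h : Near P r m) : Near P r (m - r ^ 2 / 2) := by
  intro U hU x hx
  obtain ⟨x₀, v, hv, hl⟩ := hP.line U hU
  have hinv : ∀ u ∈ U, ∀ s : ℝ, u + s • v ∈ U := fun u hu s =>
    line_inv (hP.closed U hU) (hP.convex U hU) hl hu s
  have hv0 : 0 < ‖v‖ := norm_pos_iff.2 hv
  -- the line through `x` is cut by the partition of some cell `W`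
  have h1 : ∃ W ∈ P, W ⊆ U ∧ (∀ s : ℝ, x + s • v ∈ W) ∧
      ∀ V ∈ P, V ⊂ W → ¬ ∀ s : ℝ, x + s • v ∈ V := by
    rcases descend hP (L := range fun s : ℝ => x + s • v) hU
      (by rintro _ ⟨s, rfl⟩; exact hinv x hx s) ⟨_, ⟨0, rfl⟩⟩ with
      ⟨A, hA, hAU, hLA⟩ | ⟨W, hW, hWU, hLW, hcut⟩
    · exfalso
      have h4 : ∀ s : ℝ, x + s • v ∈ A := fun s => hLA ⟨s, rfl⟩
      obtain ⟨z, -, hz2⟩ := hT _ hA
      have h6 := hz2 (h4 0)
      have h7 := hz2 (h4 ((2 * R + 1) / ‖v‖))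
      rw [mem_closedBall, zero_smul, add_zero] at h6
      rw [mem_closedBall] at h7
      have h8 := dist_triangle_right (x + ((2 * R + 1) / ‖v‖) • v) x z
      rw [dist_eq_norm, add_sub_cancel_left, norm_smul, norm_div, norm_norm,
        div_mul_cancel₀ _ hv0.ne'] at h8
      have h9 := le_abs_self (2 * R + 1)
      rw [← Real.norm_eq_abs] at h9
      linarith
    · refine ⟨W, hW, hWU, fun s => hLW ⟨s, rfl⟩, fun V hV hVW hl => hcut V hV hVW ?_⟩
      rintro _ ⟨s, rfl⟩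
      exact hl s
  obtain ⟨W, hW, hWU, hWl, hcut⟩ := h1
  obtain ⟨Q, hQP, hQW, hQ, hdis⟩ := hP.partition W hW
  have hxW : x ∈ W := by simpa using hWl 0
  have h2 := hxW
  rw [← hQ] at h2
  obtain ⟨V, hVQ, hxV⟩ := h2
  have hV := hQP hVQ
  have hVW := (hQW V hVQ).subset
  obtain ⟨t, ht⟩ := not_forall.1 (hcut V hV (hQW V hVQ))
  -- two neighbouring points of the line in different cells
  set δ : ℝ := r ^ 2 / (2 * √m + r + 1) / 2 with hδ
  have hδ0 : 0 < δ := by positivity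
  obtain ⟨s, hs, s', hs', hss⟩ := step_ex (S := {s : ℝ | x + s • v ∈ V}) (by simpa using hxV) ht
    (ε := min δ r / ‖v‖) (by positivity)
  have h3 := hWl s'
  rw [← hQ] at h3
  obtain ⟨V', hVQ', hsV'⟩ := h3
  have hV' := hQP hVQ'
  have hVW' := (hQW V' hVQ').subset
  have hne : V ≠ V' := fun e => hs' (by rw [e]; exact hsV')
  obtain ⟨z, hz1, hz2⟩ := h V hV _ hs
  obtain ⟨z', hz1', hz2'⟩ := h V' hV' _ hsV'
  -- the two balls are disjoint
  have h4 : 2 * r ≤ ‖z - z'‖ := by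
    by_contra hcon
    push Not at hcon
    have e1 : (2⁻¹ : ℝ) • (z + z') ∈ interior V := by
      refine interior_mono hz1 ?_
      rw [interior_closedBall _ hr.ne', mem_ball, dist_eq_norm]
      have : (2⁻¹ : ℝ) • (z + z') - z = (-2⁻¹ : ℝ) • (z - z') := by module
      rw [this, norm_smul]
      norm_num
      linarith
    have e2 : (2⁻¹ : ℝ) • (z + z') ∈ interior V' := by
      refine interior_mono hz1' ?_
      rw [interior_closedBall _ hr.ne', mem_ball, dist_eq_norm]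
      have : (2⁻¹ : ℝ) • (z + z') - z' = (2⁻¹ : ℝ) • (z - z') := by module
      rw [this, norm_smul]
      norm_num
      linarith
    exact (Set.disjoint_left.1 (hdis V hVQ V' hVQ' hne)) e1 e2
  -- the ball half way
  have h5 : closedBall ((2⁻¹ : ℝ) • (z + z')) r ⊆ U := by
    intro p hp
    rw [mem_closedBall, dist_eq_norm] at hp
    have e1 : p + (2⁻¹ : ℝ) • (z - z') ∈ U := by
      refine hWU (hVW (hz1 ?_))
      rw [mem_closedBall, dist_eq_norm]
      have : p + (2⁻¹ : ℝ) • (z - z') - z = p - (2⁻¹ : ℝ) • (z + z') := by module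
      rwa [this]
    have e2 : p - (2⁻¹ : ℝ) • (z - z') ∈ U := by
      refine hWU (hVW' (hz1' ?_))
      rw [mem_closedBall, dist_eq_norm]
      have : p - (2⁻¹ : ℝ) • (z - z') - z' = p - (2⁻¹ : ℝ) • (z + z') := by module
      rwa [this]
    have e3 := hP.convex U hU e1 e2 (by norm_num : (0 : ℝ) ≤ 2⁻¹) (by norm_num : (0 : ℝ) ≤ 2⁻¹)
      (by norm_num)
    have e4 : (2⁻¹ : ℝ) • (p + (2⁻¹ : ℝ) • (z - z')) + (2⁻¹ : ℝ) • (p - (2⁻¹ : ℝ) • (z - z')) =
        p := by module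
    rwa [e4] at e3
  have h6 : ‖(s' - s) • v‖ ≤ min δ r := by
    rw [norm_smul, Real.norm_eq_abs]
    exact (le_div_iff₀ hv0).1 hss
  have h7 : ‖z' - (x + s • v)‖ ^ 2 ≤ m + r ^ 2 := by
    have e1 : z' - (x + s • v) = (z' - (x + s' • v)) + (s' - s) • v := by module
    have e2 : ‖z' - (x + s' • v)‖ ≤ √m := Real.le_sqrt_of_sq_le hz2'
    have e3 := norm_add_le (z' - (x + s' • v)) ((s' - s) • v)
    rw [← e1] at e3
    have e4 : ‖z' - (x + s • v)‖ ≤ √m + min δ r := by linarith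
    have e5 : ‖z' - (x + s • v)‖ ^ 2 ≤ (√m + min δ r) ^ 2 :=
      pow_le_pow_left₀ (norm_nonneg _) e4 2
    have e6 : 0 ≤ min δ r := le_min hδ0.le hr.le
    have e7 : δ * (2 * √m + r + 1) = r ^ 2 / 2 := by
      rw [hδ]
      have : (0 : ℝ) < 2 * √m + r + 1 := by positivity
      field_simp
    have e8 : (√m + min δ r) ^ 2 ≤ m + r ^ 2 := by
      have f1 : √m ^ 2 = m := Real.sq_sqrt hm
      have f2 : min δ r ≤ δ := min_le_left _ _
      have f3 : min δ r ≤ r := min_le_right _ _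
      have f4 : 0 ≤ √m := Real.sqrt_nonneg m
      nlinarith [mul_le_mul_of_nonneg_right f2 (by positivity : 0 ≤ 2 * √m + r + 1),
        mul_le_mul_of_nonneg_left f3 e6]
    exact e5.trans e8
  refine ⟨(2⁻¹ : ℝ) • (z + z') - s • v, ?_, ?_⟩
  · intro p hp
    have e1 : p + s • v ∈ closedBall ((2⁻¹ : ℝ) • (z + z')) r := by
      rw [mem_closedBall, dist_eq_norm] at hp ⊢
      have : p + s • v - (2⁻¹ : ℝ) • (z + z') = p - ((2⁻¹ : ℝ) • (z + z') - s • v) := by module
      rwa [this]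
    have e2 := hinv _ (h5 e1) (-s)
    have e3 : p + s • v + (-s) • v = p := by module
    rwa [e3] at e2
  · have e1 : (2⁻¹ : ℝ) • (z + z') - s • v - x =
        (2⁻¹ : ℝ) • ((z - (x + s • v)) + (z' - (x + s • v))) := by module
    have e2 := parallelogram_law_with_norm ℝ (z - (x + s • v)) (z' - (x + s • v))
    have e3 : z - (x + s • v) - (z' - (x + s • v)) = z - z' := by module
    rw [e3] at e2
    rw [e1, norm_smul, mul_pow]
    norm_num
    nlinarith

/-- **No hierarchical tiling.** Let the tiles contain balls of radius `r` and be contained in the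
concentric balls of radius `R`. Then there are no cells: no closed convex set which contains a line
has a hierarchical tiling. -/
theorem result : ∀ (H : Type) [NormedAddCommGroup H] [InnerProductSpace ℝ H]
    (T : Set (Set H)) (r R : ℝ), 0 < r →
    (∀ A ∈ T, ∃ z, closedBall z r ⊆ A ∧ A ⊆ closedBall z R) →
    ∀ P : Set (Set H), IsHierarchy P T → P = ∅ := by
  intro H _ _ T r R hr hT P hP
  by_contra hne
  obtain ⟨U, hU⟩ := nonempty_iff_ne_empty.2 hne
  obtain ⟨x, _, -, hl⟩ := hP.line U hU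
  have hx : x ∈ U := by simpa using hl 0
  have h1 : ∀ j : ℕ, Near P r (R ^ 2 - j * (r ^ 2 / 2)) := by
    intro j
    induction j with
    | zero => simpa using near_base hP hT
    | succ j ih =>
      have hm : 0 ≤ R ^ 2 - j * (r ^ 2 / 2) := by
        obtain ⟨z, -, hz⟩ := ih U hU x hx
        exact (sq_nonneg _).trans hz
      have h2 := near_step hP hr hT hm ih
      have e : R ^ 2 - ((j + 1 : ℕ) : ℝ) * (r ^ 2 / 2) =
          R ^ 2 - j * (r ^ 2 / 2) - r ^ 2 / 2 := by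
        push_cast
        ring
      rwa [e]
  obtain ⟨j, hj⟩ := exists_nat_gt (R ^ 2 / (r ^ 2 / 2))
  rw [div_lt_iff₀ (by positivity)] at hj
  obtain ⟨z, -, hz⟩ := h1 j U hU x hx
  have := sq_nonneg ‖z - x‖
  linarith

end Pool.Agent.Results.MP_3191e9_an.HierarchicalTilings
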