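import Pool.Agent.Lib.MP_3191e9_an_helper66.PC

/-!
Problem `MP_3191e9_an`, both questions, negative answer for a class of bodies.

A separable infinite dimensional Hilbert space is not tiled by translates of a bounded convex
body `K` whose points of small depth are close to points of continuity, or of a body with many
shallow points.
-/

open Filter Topology Set
open scoped RealInnerProductSpace

namespace Pool.Agent.Results.MP_3191e9_an.PointsOfContinuity

open Pool.Agent.Lib.MP_3191e9_an_helper66 (deepPts shallow pcPts ManyShallow NearPC)

/-- Let `H` be a separable infinite dimensional real Hilbert space and `K` a bounded closed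
convex set with nonempty interior. Suppose that every point of `K` which is not `δ`-deep
(`δ` depending on `ε`) is within `ε` of a point of continuity of `K`, or that every such point
has, within `ε` and inside any prescribed closed subspace of finite codimension, a shallow
point of `K`. Then no family of translates of `K` covers `H` with pairwise disjoint
interiors. -/
theorem result {H : Type} [NormedAddCommGroup H] [InnerProductSpace ℝ H] [CompleteSpace H]
    [TopologicalSpace.SeparableSpace H] (hH : ¬ FiniteDimensional ℝ H)
    (K : Set H) (hconv : Convex ℝ K) (hclosed : IsClosed K) (hint : (interior K).Nonempty)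
    (hbdd : Bornology.IsBounded K) (hK : NearPC K ∨ ManyShallow K) :
    ¬ ∃ A : Set H, (⋃ a ∈ A, (fun x => a + x) '' K) = Set.univ ∧
      A.PairwiseDisjoint (fun a => interior ((fun x => a + x) '' K)) := by
  rintro ⟨A, hcov, hdisj⟩
  obtain ⟨S, hS⟩ : ∃ S, Pool.Agent.Lib.MP_3191e9_an_helper66.Rich K S := by
    rcases hK with h | h
    · exact ⟨_, Pool.Agent.Lib.MP_3191e9_an_helper66.rich_of_nearPC hH hclosed hbdd h⟩
    · exact ⟨_, Pool.Agent.Lib.MP_3191e9_an_helper66.rich_of_manyShallow h⟩
  have htr : ∀ a : H, (fun x => a + x) '' K = Pool.Agent.Lib.MP_3191e9_an_helper66.tr a K := by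
    intro a
    ext x
    constructor
    · rintro ⟨y, hy, rfl⟩
      show a + y - a ∈ K
      rwa [add_sub_cancel_left]
    · intro hx
      exact ⟨x - a, hx, by simp⟩
  refine Pool.Agent.Lib.MP_3191e9_an_helper66.no_tiling_rich hH hconv hint hclosed hbdd hS A
    ⟨fun x => ?_, fun a ha b hb hab => ?_⟩
  · have hx : x ∈ (⋃ a ∈ A, (fun x => a + x) '' K) := hcov ▸ mem_univ x
    obtain ⟨a, ha, hxa⟩ := mem_iUnion₂.1 hx
    exact ⟨a, ha, htr a ▸ hxa⟩
  · have := hdisj ha hb hab
    simp only [Function.onFun, htr] at this
    exact this

end Pool.Agent.Results.MP_3191e9_an.PointsOfContinuity
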