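import Pool.Agent.Lib.MP_3191e9_an_h61.Perturb

/-!
Problem `MP_3191e9_an`, a restriction on all tilings by bounded convex bodies, in particular on all
tilings by translates of one body (lattice or not): such a tiling of a separable space is countable.
-/

set_option autoImplicit false

open Filter Topology Set
open scoped RealInnerProductSpace

namespace Pool.Agent.Results.MP_3191e9_an.UndominatedPoints

open Pool.Agent.Lib.MP_3191e9_an_h61 (Dominated exists_not_dominated)

/-- Let `H` be a real Hilbert space and `T i`, `i ∈ ι`, countably many bounded closed convex sets
covering `H` (for instance a tiling of a separable Hilbert space by translates of a bounded convex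
body). Then every closed affine subspace `x₀ + V` of infinite dimension contains a point which is
not dominated by finitely many of the sets `T i`. -/
theorem result {H : Type} [NormedAddCommGroup H] [InnerProductSpace ℝ H] [CompleteSpace H]
    {ι : Type} [Countable ι] (T : ι → Set H) (hcov : (⋃ i, T i) = Set.univ)
    (hconv : ∀ i, Convex ℝ (T i)) (hclosed : ∀ i, IsClosed (T i))
    (hbdd : ∀ i, Bornology.IsBounded (T i))
    (V : Submodule ℝ H) (hVc : IsClosed (V : Set H)) (hV : ¬ FiniteDimensional ℝ V) (x₀ : H) :
    ∃ v ∈ V, ¬ Dominated T (x₀ + v) :=
  exists_not_dominated T (fun x => mem_iUnion.1 (hcov ▸ mem_univ x)) hconv hclosed hbdd V hVc hV x₀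

end Pool.Agent.Results.MP_3191e9_an.UndominatedPoints
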