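import Pool.Agent.Lib.MP_3191e9_an_helper66.Lattice

/-!
Problem `MP_3191e9_an`, lattice tilings of Voronoi type.

A separable infinite dimensional Hilbert space has no lattice tiling of Voronoi type by a
bounded convex body. The form which defines the cells is any symmetric pairing of the lattice,
continuous in one variable only: it need not be bounded, nor coercive.
-/

open Set
open scoped RealInnerProductSpace

namespace Pool.Agent.Results.MP_3191e9_an.VoronoiLattices

open Pool.Agent.Lib.MP_3191e9_an_helper66 (cell)

/-- Let `A` be an additive subgroup of a separable infinite dimensional real Hilbert space `H`,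
let `B(a, x) = ⟪β a, x⟫` be additive in `a ∈ A` and symmetric on `A`, and let
`K = {x | B(a, x) ≤ B(a, a) / 2 for all a ∈ A}`. If `K` is bounded with nonempty interior,
then the translates `a + K`, `a ∈ A`, do not cover `H`. -/
theorem result {H : Type} [NormedAddCommGroup H] [InnerProductSpace ℝ H] [CompleteSpace H]
    [TopologicalSpace.SeparableSpace H] (hH : ¬ FiniteDimensional ℝ H)
    (A : AddSubgroup H) (β : A →+ H)
    (hsymm : ∀ a b : A, ⟪β a, (b : H)⟫ = ⟪β b, (a : H)⟫)
    (hint : (interior (cell A β)).Nonempty) (hbdd : Bornology.IsBounded (cell A β)) :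
    (⋃ a : A, (fun x => (a : H) + x) '' cell A β) ≠ Set.univ := by
  intro hcov
  obtain ⟨x, hx⟩ := Pool.Agent.Lib.MP_3191e9_an_helper66.no_voronoi_lattice hH A β hsymm
    hint hbdd
  have hmem : x ∈ (⋃ a : A, (fun x => (a : H) + x) '' cell A β) := hcov ▸ mem_univ x
  obtain ⟨a, y, hy, hyx⟩ := mem_iUnion.1 hmem
  refine hx a ?_
  have : x - a = y := by rw [← hyx]; simp
  rw [this]
  exact hy

end Pool.Agent.Results.MP_3191e9_an.VoronoiLattices
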